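import Pool.Agent.H17.EQ.TargetsQ
import Pool.Agent.H17.EE.XB

/-!
# MP_70ba79_ag, board `ee_modules`, row EQV: the quadratic forms determine the curve
-/

set_option autoImplicit false

namespace Pool.Agent.H80.EE

open MvPolynomial SC Pool.Agent.H27.LV Pool.Agent.H17.VG Pool.Agent.H17.BO Pool.Agent.H30.EE
open Pool.Agent.H17.EQ

section Basic

variable {K : Type} [Field K] {n r : ℕ}

theorem resC_mul (z : Fin (r + 1) → Fin (n + 1) → K) (p q : MvPolynomial (Fin (n + 1)) K) :
    resC z (p * q) = resC z p * resC z q := by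
  unfold resC
  rw [map_mul]

theorem resC_sub (z : Fin (r + 1) → Fin (n + 1) → K) (p q : MvPolynomial (Fin (n + 1)) K) :
    resC z (p - q) = resC z p - resC z q := by
  unfold resC
  rw [map_sub]

theorem resC_C (z : Fin (r + 1) → Fin (n + 1) → K) (a : K) :
    resC z (C a) = Polynomial.C a := by
  unfold resC
  rw [aeval_C]
  rfl

theorem resC_X (z : Fin (r + 1) → Fin (n + 1) → K) (i : Fin (n + 1)) :
    resC z (X i) = ∑ j : Fin (r + 1), Polynomial.C (z j i) * Polynomial.X ^ (j : ℕ) := by
  unfold resC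
  rw [aeval_X]

theorem resC_sum {ι : Type} (s : Finset ι) (z : Fin (r + 1) → Fin (n + 1) → K)
    (f : ι → MvPolynomial (Fin (n + 1)) K) :
    resC z (∑ i ∈ s, f i) = ∑ i ∈ s, resC z (f i) := by
  unfold resC
  rw [map_sum]

theorem eval_zero_resC (z : Fin (r + 1) → Fin (n + 1) → K) (G : MvPolynomial (Fin (n + 1)) K) :
    (resC z G).eval 0 = eval (z 0) G := by
  have h : (resC z G).eval 0 = eval (fun i => ∑ j : Fin (r + 1), (0 : K) ^ (j : ℕ) * z j i) G :=
    Pool.Agent.H17.EE.eval_resC z G 0
  rw [h]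
  congr 2
  funext i
  rw [Finset.sum_eq_single 0]
  · simp
  · intro j _ hj
    have : (j : ℕ) ≠ 0 := fun h0 => hj (Fin.ext h0)
    rw [zero_pow this, zero_mul]
  · intro h0
    exact absurd (Finset.mem_univ _) h0

theorem linInd_of_left {z : Fin (r + 1) → Fin (n + 1) → K} {ν : Fin (r + 1) → Fin (n + 1) → K}
    (h : ∀ i i', ∑ l, ν i l * z i' l = if i = i' then 1 else 0) : LinearIndependent K z := by
  refine Pool.Agent.H17.EE.linInd_of_leftInv (W := fun l j => ν j l) fun i j => ?_
  have h1 := h j i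
  have h2 : ∑ l, z i l * ν j l = ∑ l, ν j l * z i l :=
    Finset.sum_congr rfl fun l _ => mul_comm _ _
  rw [h2, h1]
  by_cases hij : i = j
  · rw [if_pos hij, if_pos hij.symm]
  · rw [if_neg hij, if_neg (Ne.symm hij)]

/-- a linear form with the coefficients `c` -/
noncomputable def lf (c : Fin (n + 1) → K) : MvPolynomial (Fin (n + 1)) K := ∑ j, C (c j) * X j

theorem lf_homog (c : Fin (n + 1) → K) : (lf c).IsHomogeneous 1 := by
  unfold lf
  refine IsHomogeneous.sum _ _ _ fun j _ => ?_
  have h := (isHomogeneous_C (Fin (n + 1)) (c j)).mul (isHomogeneous_X K j)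
  simpa using h

theorem eval_lf (c x : Fin (n + 1) → K) : eval x (lf c) = ∑ j, c j * x j := by
  unfold lf
  rw [map_sum]
  exact Finset.sum_congr rfl fun j _ => by rw [map_mul, eval_C, eval_X]

theorem resC_lf (z : Fin (r + 1) → Fin (n + 1) → K) (c : Fin (n + 1) → K) :
    resC z (lf c) = ∑ i : Fin (r + 1), Polynomial.C (∑ j, c j * z i j) * Polynomial.X ^ (i : ℕ) := by
  unfold lf
  rw [resC_sum]
  have h1 : ∀ j : Fin (n + 1), resC z (C (c j) * X j) =
      ∑ i : Fin (r + 1), Polynomial.C (c j * z i j) * Polynomial.X ^ (i : ℕ) := by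
    intro j
    rw [resC_mul, resC_C, resC_X, Finset.mul_sum]
    refine Finset.sum_congr rfl fun i _ => ?_
    rw [← mul_assoc, ← Polynomial.C_mul]
  simp only [h1]
  rw [Finset.sum_comm]
  refine Finset.sum_congr rfl fun i _ => ?_
  rw [← Finset.sum_mul, ← map_sum]

theorem resC_dual {z ν : Fin (r + 1) → Fin (n + 1) → K}
    (h : ∀ i i', ∑ l, ν i l * z i' l = if i = i' then 1 else 0) (i : Fin (r + 1)) :
    resC z (lf (ν i)) = Polynomial.X ^ (i : ℕ) := by
  rw [resC_lf, Finset.sum_eq_single i]
  · rw [h i i, if_pos rfl, map_one, one_mul]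
  · intro j _ hj
    rw [h i j, if_neg (Ne.symm hj), map_zero, zero_mul]
  · intro h0
    exact absurd (Finset.mem_univ _) h0

theorem mem_Iz {a : ℕ} {z : Fin (r + 1) → Fin (n + 1) → K} {G : MvPolynomial (Fin (n + 1)) K} :
    G ∈ Iz a z ↔ G.IsHomogeneous a ∧ resC z G = 0 := by
  unfold Iz
  rw [Submodule.mem_inf, mem_homogeneousSubmodule, LinearMap.mem_ker]
  rfl

theorem frL_apply {d : ℕ} (t : Mon (n + 1) d → K) : frL K n d t = frm t := rfl

theorem frL_ker (d : ℕ) : LinearMap.ker (frL K n d) = ⊥ := by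
  rw [LinearMap.ker_eq_bot']
  intro t ht
  exact frm_zero ht

theorem frL_range (d : ℕ) : LinearMap.range (frL K n d) = Sd K n d := by
  ext G
  rw [LinearMap.mem_range, mem_homogeneousSubmodule]
  constructor
  · rintro ⟨t, rfl⟩
    exact frm_homog t
  · intro hG
    exact ⟨_, frm_coeff hG⟩

theorem finrank_Sd (d : ℕ) : Module.finrank K (Sd K n d) = Fintype.card (Mon (n + 1) d) := by
  rw [← frL_range, LinearMap.finrank_range_of_inj (LinearMap.ker_eq_bot.1 (frL_ker d)),
    Module.finrank_fintype_fun_eq_card]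

end Basic

theorem pf_EQV (hQDM : T_QDM) : T_EQV := by
  classical
  intro L _ _ n r M q z z' hM hq hz hqz hqz' ν hν
  have hz' : LinearIndependent L z' := linInd_of_left hν
  -- the span of the quadratic forms
  set W : Submodule L (MvPolynomial (Fin (n + 1)) L) :=
    Submodule.span L (Set.range fun l => frm (q l)) with hW
  have hfi : LinearIndependent L fun l => frm (q l) := by
    have h := hq.map' (frL L n 2) (frL_ker 2)
    exact h
  have hWd : Module.finrank L W = M := by
    rw [hW, finrank_span_eq_card hfi, Fintype.card_fin]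
  have key : ∀ y : Fin (r + 1) → Fin (n + 1) → L, LinearIndependent L y →
      (∀ l, resC y (frm (q l)) = 0) → W = Iz 2 y := by
    intro y hy hqy
    have hle : W ≤ Iz 2 y := by
      rw [hW, Submodule.span_le]
      rintro _ ⟨l, rfl⟩
      exact mem_Iz.2 ⟨frm_homog _, hqy l⟩
    have hfin : FiniteDimensional L (Sd L n 2) := by
      rw [← frL_range]
      infer_instance
    have hfin2 : FiniteDimensional L (Iz 2 y) :=
      Submodule.finiteDimensional_of_le (show Iz 2 y ≤ Sd L n 2 from inf_le_left)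
    have h3 := (hQDM L r n 2 y hy).2.2.1
    rw [finrank_Sd] at h3
    refine Submodule.eq_of_le_of_finrank_eq hle ?_
    rw [hWd]
    omega
  have hE : Iz 2 z' = Iz 2 z := (key z' hz' hqz').symm.trans (key z hz hqz)
  have hvan : ∀ G : MvPolynomial (Fin (n + 1)) L, G.IsHomogeneous 2 → resC z' G = 0 →
      resC z G = 0 := by
    intro G hG hG'
    have h1 : G ∈ Iz 2 z' := mem_Iz.2 ⟨hG, hG'⟩
    rw [hE] at h1
    exact (mem_Iz.1 h1).2
  have hlin : ∀ c : Fin (n + 1) → L, resC z' (lf c) = 0 → ∑ j, c j * z 0 j = 0 := by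
    intro c hc
    have h1 : resC z (lf c * lf c) = 0 :=
      hvan _ ((lf_homog c).mul (lf_homog c)) (by rw [resC_mul, hc, mul_zero])
    rw [resC_mul, mul_self_eq_zero] at h1
    have h2 := eval_zero_resC z (lf c)
    rw [h1, Polynomial.eval_zero, eval_lf] at h2
    exact h2.symm
  refine ⟨fun j => ?_, fun i i' l l' hil => ?_⟩
  · have h1 := hlin (fun m => (if m = j then 1 else 0) - ∑ i, z' i j * ν i m) ?_
    · have h2 : ∑ m, ((if m = j then 1 else 0) - ∑ i, z' i j * ν i m) * z 0 m =
          z 0 j - ∑ i, z' i j * ∑ l, ν i l * z 0 l := by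
        simp only [sub_mul, Finset.sum_sub_distrib, ite_mul, one_mul, zero_mul,
          Finset.sum_ite_eq', Finset.mem_univ, if_true, Finset.sum_mul, Finset.mul_sum]
        congr 1
        rw [Finset.sum_comm]
        exact Finset.sum_congr rfl fun i _ => Finset.sum_congr rfl fun m _ => by ring
      rw [h2, sub_eq_zero] at h1
      exact h1.symm
    · rw [resC_lf]
      refine Finset.sum_eq_zero fun i' _ => ?_
      have h3 : ∑ m, ((if m = j then 1 else 0) - ∑ i, z' i j * ν i m) * z' i' m =
          z' i' j - ∑ i, z' i j * ∑ l, ν i l * z' i' l := by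
        simp only [sub_mul, Finset.sum_sub_distrib, ite_mul, one_mul, zero_mul,
          Finset.sum_ite_eq', Finset.mem_univ, if_true, Finset.sum_mul, Finset.mul_sum]
        congr 1
        rw [Finset.sum_comm]
        exact Finset.sum_congr rfl fun i _ => Finset.sum_congr rfl fun m _ => by ring
      rw [h3]
      simp only [hν, mul_ite, mul_one, mul_zero, Finset.sum_ite_eq', Finset.mem_univ, if_true,
        sub_self, map_zero, zero_mul]
  · have h1 : resC z' (lf (ν i) * lf (ν i') - lf (ν l) * lf (ν l')) = 0 := by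
      rw [resC_sub, resC_mul, resC_mul, resC_dual hν, resC_dual hν, resC_dual hν, resC_dual hν,
        ← pow_add, ← pow_add, hil, sub_self]
    have h2 := hvan _ (((lf_homog (ν i)).mul (lf_homog (ν i'))).sub
      ((lf_homog (ν l)).mul (lf_homog (ν l')))) h1
    have h3 := eval_zero_resC z (lf (ν i) * lf (ν i') - lf (ν l) * lf (ν l'))
    rw [h2, Polynomial.eval_zero, map_sub, map_mul, map_mul, eval_lf, eval_lf, eval_lf,
      eval_lf] at h3
    exact sub_eq_zero.1 h3.symm

end Pool.Agent.H80.EE
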