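import Pool.Agent.H80.EE.EQV

/-!
# MP_70ba79_ag, board `ee_modules`, row QQQ: Proposition 7 for any homogeneous coordinates
-/

set_option autoImplicit false

namespace Pool.Agent.H80.EE

open MvPolynomial SC Pool.Agent.H27.LV Pool.Agent.H17.VG Pool.Agent.H17.BO Pool.Agent.H30.EE
open Pool.Agent.H17.EQ

section Scale

variable {K : Type} [Field K] {n r : ℕ}

theorem eval_scale {a : ℕ} {G : MvPolynomial (Fin (n + 1)) K} (hG : G.IsHomogeneous a) (e : K)
    (y : Fin (n + 1) → K) : eval (fun i => e * y i) G = e ^ a * eval y G := by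
  have h1 : ∀ f : Mon (n + 1) a, mv a (fun i => e * y i) f = e ^ a * mv a y f := by
    intro f
    unfold mv
    simp only [mul_pow, Finset.prod_mul_distrib]
    congr 1
    rw [Finset.prod_pow_eq_pow_sum, f.2]
  rw [← frm_coeff hG, eval_frm, eval_frm, Finset.mul_sum]
  refine Finset.sum_congr rfl fun f _ => ?_
  rw [h1 f]
  ring

theorem resC_scale [Infinite K] {a : ℕ} {G : MvPolynomial (Fin (n + 1)) K}
    (hG : G.IsHomogeneous a) (e : K) (z : Fin (r + 1) → Fin (n + 1) → K) :
    resC (fun i j => e * z i j) G = Polynomial.C (e ^ a) * resC z G := by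
  refine Polynomial.funext fun T => ?_
  rw [Polynomial.eval_mul, Polynomial.eval_C]
  have h1 : (resC (fun i j => e * z i j) G).eval T =
      eval (fun i => ∑ j : Fin (r + 1), T ^ (j : ℕ) * (e * z j i)) G :=
    Pool.Agent.H17.EE.eval_resC (fun i j => e * z i j) G T
  have h2 : (resC z G).eval T = eval (fun i => ∑ j : Fin (r + 1), T ^ (j : ℕ) * z j i) G :=
    Pool.Agent.H17.EE.eval_resC z G T
  rw [h1, h2, ← eval_scale hG]
  congr 2
  funext i
  rw [Finset.mul_sum]
  exact Finset.sum_congr rfl fun j _ => by ring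

theorem RM_scale [Infinite K] (a : ℕ) (e : K) (z : Fin (r + 1) → Fin (n + 1) → K) :
    RM a (fun i j => e * z i j) = fun i M => e ^ a * RM a z i M := by
  funext i M
  unfold RM
  rw [resC_scale (isHomogeneous_mono (K := K) M), Polynomial.coeff_C_mul]

theorem mnr_scale {m : ℕ} {ι : Type} (c : K) (u : Fin m → ι → K) :
    mnr (fun i M => c * u i M) = c ^ m • mnr u := by
  funext J
  unfold mnr
  have h : (Matrix.of fun a b : Fin m => c * u a (J b)) =
      c • (Matrix.of fun a b : Fin m => u a (J b)) := by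
    ext a b
    rfl
  rw [h, Matrix.det_smul, Fintype.card_fin]
  rfl

end Scale

section Order

variable {k K : Type} [Field k] [Field K] [Algebra k K]

theorem mo_pole (hMO : T_MO) {n : ℕ} (v : DV k K) (y : Fin (n + 1) → K) (p : Fin (n + 1))
    (hp : y p = 1) : mo v y = -(poleOrder v y : ℤ) := by
  have hy : y ≠ 0 := by
    intro h0
    rw [h0] at hp
    exact zero_ne_one hp
  obtain ⟨h1, -, h3, -⟩ := (hMO k K v (Fin (n + 1)) y).2 hy
  have hle : mo v y ≤ 0 := by
    rcases h1 p with h | h
    · rw [hp] at h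
      exact absurd h one_ne_zero
    · rw [hp, v.ord_one] at h
      exact h
  apply le_antisymm
  · have h4 : poleOrder v y ≤ (-(mo v y)).toNat := by
      unfold poleOrder
      refine Finset.sup_le fun i _ => ?_
      rcases h1 i with h | h
      · rw [h, v.ord_zero]
        simp
      · exact Int.toNat_le_toNat (by omega)
    have h5 : (poleOrder v y : ℤ) ≤ ((-(mo v y)).toNat : ℤ) := by exact_mod_cast h4
    rw [Int.toNat_of_nonneg (by omega)] at h5
    omega
  · refine h3 _ fun i => Or.inr ?_
    have h4 : (-(v.ord (y i))).toNat ≤ poleOrder v y := by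
      unfold poleOrder
      exact Finset.le_sup (f := fun i => (-(v.ord (y i))).toNat) (Finset.mem_univ i)
    have h5 : ((-(v.ord (y i))).toNat : ℤ) ≤ (poleOrder v y : ℤ) := by exact_mod_cast h4
    have h6 := Int.self_le_toNat (-(v.ord (y i)))
    omega

end Order

theorem pf_QQQ (hHG : T_HG) (hMO : T_MO) (hQQP : T_QQP) : T_QQQ := by
  classical
  intro n d r hr hd
  obtain ⟨C, hC⟩ := hQQP n d r hr hd
  refine ⟨C, ?_⟩
  intro k K _ _ _ _ _ _ htr D hD c z hz hF S hS hcan hT B hB
  have : CharZero K := charZero_of_injective_algebraMap (algebraMap k K).injective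
  have : Infinite K := inferInstance
  obtain ⟨p, hp⟩ : ∃ p, z 0 p ≠ 0 := by
    by_contra h
    push Not at h
    exact hz.ne_zero 0 (funext h)
  set e : K := (z 0 p)⁻¹ with he
  have he0 : e ≠ 0 := inv_ne_zero hp
  set F : MvPolynomial (Fin (n + 1)) K := up K (frm c) with hFd
  have hFh : F.IsHomogeneous d := (frm_homog c).map _
  -- the scaled curve
  have hz' : LinearIndependent K (fun (i : Fin (r + 1)) (j : Fin (n + 1)) => e * z i j) := by
    have h := hz.units_smul (fun _ => Units.mk0 e he0)
    exact h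
  have hev : eval (fun j => e * z 0 j) F = e ^ d * eval (z 0) F := eval_scale hFh e (z 0)
  have hz0 : z 0 ≠ 0 := hz.ne_zero 0
  have hsm : (fun j => e * z 0 j) = e • z 0 := rfl
  have hone : (fun j => e * z 0 j) p = 1 := inv_mul_cancel₀ hp
  have hT' : ¬ TwoR d F (fun (i : Fin (r + 1)) (j : Fin (n + 1)) => e * z i j) := by
    rintro ⟨α, β, a, b, hab, h⟩
    refine hT ⟨α, β, a, b, hab, ?_⟩
    rw [resC_scale hFh, hev, Polynomial.map_mul, Polynomial.map_C, map_mul, map_mul, mul_assoc,
      mul_assoc] at h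
    have hne : (Polynomial.C ((algebraMap K (AlgebraicClosure K)) (e ^ d)) :
        Polynomial (AlgebraicClosure K)) ≠ 0 := by
      rw [Polynomial.C_ne_zero]
      exact (map_ne_zero _).2 (pow_ne_zero _ he0)
    rw [mul_assoc]
    exact mul_left_cancel₀ hne h
  have hDa : Da k 2 (fun (i : Fin (r + 1)) (j : Fin (n + 1)) => e * z i j) = Da k 2 z := by
    unfold Da
    rw [RM_scale, mnr_scale]
    exact (hHG k K htr _ (mnr (RM 2 z))).2.2.1 _ (pow_ne_zero _ (pow_ne_zero _ he0))
  have hmain := hC k K htr D hD c (fun i j => e * z i j) p hz' hone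
    (by
      change eval (fun j => e * z 0 j) F ≠ 0
      rw [hev]
      exact mul_ne_zero (pow_ne_zero _ he0) hF) S
    (by
      intro v hv
      change v.ord (eval (fun j => e * z 0 j) F) = -(d * poleOrder v (fun j => e * z 0 j))
      have h1 : mo v (e • z 0) = v.ord e + mo v (z 0) :=
        ((hMO k K v (Fin (n + 1)) (z 0)).2 hz0).2.2.2.1 e he0
      have h2 := mo_pole hMO v (fun j => e * z 0 j) p hone
      rw [hsm, h1] at h2
      rw [hev, v.ord_mul' (pow_ne_zero _ he0) hF, v.ord_pow, hS v hv, hsm]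
      rw [← mul_add, h2, mul_neg]) hcan hT' B (by rw [hDa]; exact hB)
  have h1 := (hHG k K htr _ (z 0)).2.2.1 e he0
  have h2 := (hHG k K htr _ (fun j => e * z 0 j)).2.2.2.2.2.1 p hone
  rw [← h1, ← hsm, h2]
  exact hmain

end Pool.Agent.H80.EE
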